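import Pool.Agent.MNW.StmtsT

/-!
Squad MNW, row TGW (helper86).
-/

set_option autoImplicit false

namespace Pool.Agent.MNW.H86

open Pool.Agent.MNT
open scoped Classical

section
variable {V : Type} [Fintype V] [PartialOrder V] [OrderTop V]

omit [OrderTop V] in
theorem split_le (f : V → ℝ) (v : V) :
    ∑ d, f d = (∑ d with d ≤ v, f d) + ∑ d with ¬ d ≤ v, f d :=
  (Finset.sum_filter_add_sum_filter_not _ _ _).symm

theorem split_ne (f : V → ℝ) (v : V) (hv : v ≠ ⊤) :
    ∑ d with d ≠ ⊤, f d = (∑ d with d < v, f d) + (f v + ∑ d with d ≠ ⊤ ∧ ¬ d ≤ v, f d) := by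
  have h1 : (Finset.univ.filter fun d : V => d ≠ ⊤) =
      (Finset.univ.filter fun d : V => d < v) ∪
        (insert v (Finset.univ.filter fun d : V => d ≠ ⊤ ∧ ¬ d ≤ v)) := by
    ext d
    simp only [Finset.mem_filter, Finset.mem_univ, true_and, Finset.mem_union, Finset.mem_insert]
    constructor
    · intro hd
      by_cases h : d ≤ v
      · rcases h.lt_or_eq with h | h
        · exact Or.inl h
        · exact Or.inr (Or.inl h)
      · exact Or.inr (Or.inr ⟨hd, h⟩)
    · rintro (h | h | h)
      · exact (h.trans_le le_top).ne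
      · exact h ▸ hv
      · exact h.1
  rw [h1, Finset.sum_union, Finset.sum_insert]
  · intro h
    rw [Finset.mem_filter] at h
    exact h.2.2 le_rfl
  · rw [Finset.disjoint_left]
    intro d hd hd'
    rw [Finset.mem_filter] at hd
    rcases Finset.mem_insert.mp hd' with h | h
    · exact absurd hd.2 (h ▸ lt_irrefl _)
    · rw [Finset.mem_filter] at h
      exact h.2.2 hd.2.le

end

/-- TGW. -/
theorem tgw (hRes : MNT.ResStmt) (hFlo : MNT.FloStmt) (hDwn : DwnStmt) (hUpx : UpxStmt)
    (hBld : BldStmt) (hBlu : BluStmt) (hBeu : BeuStmt) (hMgr : MgrStmt) (hHhc : HhcStmt)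
    (hIdd : IddStmt) (hIdu : IduStmt) : TgwStmt := by
  intro g m A u t k hN V _ _ _ T G a b l hl hLa
  obtain ⟨s, r, hR⟩ := hRes V T G l hl hLa.top (by
    intro v hv
    by_contra hne
    rw [Finset.not_nonempty_iff_eq_empty] at hne
    have h1 := hLa.sum_eq v hv
    rw [hne, Finset.sum_empty] at h1
    have h2 := hLa.a_pos v
    omega)
  obtain ⟨q, U, hD⟩ := hDwn g m A V T G a b l s r hl hLa hR
  obtain ⟨p, Z, hU⟩ := hUpx g m A V T G a b l s r q U hl hLa hR hD
  choose D hD1 hD2 hD3 hD4 using hFlo V T G l s r hl hLa.top hR
  refine ⟨D, hD1, hD2, hD3, ?_⟩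
  have hrho : ∀ v, 0 ≤ rho T b v := by
    intro v
    unfold rho
    have h1 := hLa.b_kids v
    have h2 : ((∑ c ∈ T.kids v, b c : ℕ) : ℝ) ≤ (b v : ℝ) := by exact_mod_cast h1
    push_cast at h2
    linarith
  have key : 1 / 30 * ∑ c with c ≠ ⊤, l c + A * ∑ v, rho T b v * hh l s r v ≤
      ∑ c with c ≠ ⊤, l c * w1 g m A (a c) (b c) := by
    obtain ⟨v, hv1, hv2⟩ := (wellFounded_lt (α := V)).has_min {v | m < 2 * b v}
      ⟨⊤, by
        show m < 2 * b ⊤
        rw [hLa.b_top]
        have := hN.m_ge
        omega⟩
    have hv1' : m < 2 * b v := hv1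
    have hkids : ∀ c ∈ T.kids v, 2 * b c ≤ m := by
      intro c hc
      unfold Tree.kids at hc
      rw [Finset.mem_filter] at hc
      by_contra hlt
      have h1 : c < T.par c := T.lt_par c hc.2.1
      rw [hc.2.2] at h1
      exact hv2 c (by
        show m < 2 * b c
        omega) h1
    have hbld := hBld g m A u t k hN V T G a b l s r q U hl hLa hR hD v hkids
    have hidd := hIdd g m A V T G a b l s r q U hl hLa hR hD v
    by_cases hvt : v = ⊤
    · subst hvt
      have hs : s ⊤ = 0 := hR.s_grd ⊤ hLa.top
      have hh0 : hh l s r ⊤ = 0 := by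
        unfold hh
        rw [hs]
        simp
      rw [hh0, mul_zero, sub_zero] at hidd
      rw [hs, zero_mul, add_zero] at hbld
      have h1 : (Finset.univ.filter fun d : V => d < ⊤) =
          Finset.univ.filter fun d : V => d ≠ ⊤ := by
        ext d
        simp only [Finset.mem_filter, Finset.mem_univ, true_and]
        exact lt_top_iff_ne_top
      have h2 : (Finset.univ.filter fun d : V => d ≤ ⊤) = Finset.univ := by
        ext d
        simp
      rw [h1, h2] at hidd
      rw [h1] at hbld
      linarith
    · have hidu := hIdu g m A V T G a b l s r q U p Z hl hLa hR hD hU v hvt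
      have hhc := (hHhc V T G l s r hl hLa.top hR v hvt).2
      have hblu := hBlu g m A u t k hN V T G a b l s r q U p Z hl hLa hR hD hU v hvt hv1'
      obtain ⟨hbeu1, hbeu2⟩ := hBeu g m A u t k hN V T G a b l s r q U p Z hl hLa hR hD hU v hvt
        hv1' hblu
      have hlv := hl v hvt
      have hr0 : 0 ≤ r v := by
        by_cases hg : G (T.par v)
        · rw [hR.r_grd v hvt hg]
        · exact (hR.r_pos v hvt hg).le
      have hrl : 0 < r v + l v := by linarith
      obtain ⟨p', hp'⟩ : ∃ p', p' = (r v / (r v + l v)) ^ 2 * p v := ⟨_, rfl⟩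
      -- the identity
      have e1 := split_ne (fun d => l d * w1 g m A (a d) (b d)) v hvt
      have e2 := split_ne l v hvt
      have e3 := split_le (fun d => rho T b d * hh l s r d) v
      have hYU : YU g m A a b l r p Z v = Z v + l v * w1 g m A (a v) (b v) -
        A * (r v * l v / (r v + l v)) * p v := rfl
      have e4 : l v * w1 g m A (a v) (b v) + Z v - A * p v * hh l s r (T.par v) =
          YU g m A a b l r p Z v - A * hh l s r v * p' := by
        rw [hYU, hhc, hp']
        ring
      have e5 : ∑ c with c ≠ ⊤, l c * w1 g m A (a c) (b c) -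
          A * ∑ d, rho T b d * hh l s r d =
          U v + YU g m A a b l r p Z v - A * hh l s r v * (q v + p') := by
        rw [e1, e3]
        linarith
      by_cases hg : G v
      · have hs : s v = 0 := hR.s_grd v hg
        have hh0 : hh l s r v = 0 := by
          unfold hh
          rw [hs]
          simp
        rw [hh0, mul_zero, zero_mul, sub_zero] at e5
        rw [hs, zero_mul, add_zero] at hbld
        rw [e2]
        linarith
      · have hs : 0 < s v := hR.s_pos v hg
        have hb2 := hbeu2 (hLa.even v hg)
        rw [← hp'] at hb2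
        obtain ⟨-, hm⟩ := hMgr u t k hN.u_pos hN.k_pos hN.psd
        have hm2 := hm Bool Finset.univ (fun i => if i then s v else r v + l v)
          (fun i => if i then (a v : ℝ) else 2 * g + 2 - a v)
          (fun i => if i then (b v : ℝ) - q v else m - b v - p')
          (by
            intro i _
            cases i
            · exact hrl
            · exact hs)
        simp only [Fintype.sum_bool, if_true, Bool.false_eq_true, if_false] at hm2
        have hhv : ((s v)⁻¹ + (r v + l v)⁻¹)⁻¹ = hh l s r v := by
          unfold hh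
          have h1 : s v + l v + r v ≠ 0 := by
            have : 0 < s v + l v + r v := by linarith
            exact this.ne'
          have h2 : s v ≠ 0 := hs.ne'
          have h3 : r v + l v ≠ 0 := hrl.ne'
          have h4 : (s v)⁻¹ + (r v + l v)⁻¹ = (s v + l v + r v) / (s v * (l v + r v)) := by
            field_simp
            ring
          rw [h4, inv_div]
        have hx : (a v : ℝ) + (2 * g + 2 - a v) = 2 * g + 2 := by ring
        have hy : (b v : ℝ) - q v + (m - b v - p') = m - (q v + p') := by ring
        rw [hhv, hx, hy] at hm2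
        have hh0 : 0 ≤ hh l s r v := by
          rw [← hhv]
          positivity
        have hq0 := hD.q_nn v
        have hq1 := hD.q_le v
        have hpn := hU.p_nn v hvt
        have hpl := hU.p_le v hvt
        have hrat : (r v / (r v + l v)) ^ 2 ≤ 1 := by
          have h1 : r v / (r v + l v) ≤ 1 := by
            rw [div_le_one hrl]
            linarith
          have h2 : 0 ≤ r v / (r v + l v) := div_nonneg hr0 hrl.le
          exact pow_le_one₀ h2 h1
        have hp0 : 0 ≤ p' := by
          rw [hp']
          positivity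
        have hp1 : p' ≤ p v := by
          rw [hp']
          exact mul_le_of_le_one_left hpn hrat
        have hcen := hN.cen (q v + p') (by linarith) (by linarith)
        have hfin := mul_le_mul_of_nonneg_left hcen hh0
        have e6 : A * hh l s r v * (q v + p') = hh l s r v * (A * (q v + p')) := by ring
        rw [e6] at e5
        rw [e2]
        linarith
  have hsum : ∑ v, ((b v : ℝ) - ∑ c ∈ T.kids v, (b c : ℝ)) * QQ l (fun j => D v j - dl v j) ≤
      ∑ v, rho T b v * hh l s r v := by
    refine Finset.sum_le_sum fun v _ => ?_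
    exact mul_le_mul_of_nonneg_left (hD4 v) (hrho v)
  have := mul_le_mul_of_nonneg_left hsum hN.A_nn
  linarith

end Pool.Agent.MNW.H86
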